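import Mathlib
import Pool.Agent.H616R2.SVLFinal

namespace Pool.Agent.Results.MP_e1dfa1_lc.NoBBSVL

open Pool.Agent.H616R2.SVL

/-- **Result.** There is no fully black-box construction of a hard-on-average distribution of valid
SVL instances from a one-way permutation, for both readings of the index set `[2^n]`
(`e = 0`: `{0, …, 2^n - 1}`, `e = 1`: `{1, …, 2^n}`). Samplers `G` and reductions `R` are even
allowed to be computationally unbounded; only the total length of their queries and the size of the
output of `G` are required to be polynomially bounded. -/
theorem result : ∀ e : ℕ, e ≤ 1 → ∀ (G : Sampler) (R : Reduction), ¬ FullyBB e G R :=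
  fun e he G R => main e he G R

end Pool.Agent.Results.MP_e1dfa1_lc.NoBBSVL
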